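import Pool.Agent.H850.TY.Strong
import Pool.Agent.H952R2.TY.P.FIN2
import Pool.Agent.H952R2.TY.P.A1
import Pool.Agent.H952R2.TY.P.A2
import Pool.Agent.H952R2.TY.P.A3
import Pool.Agent.H952R2.TY.P.A4
import Pool.Agent.H952R2.TY.P.A5
import Pool.Agent.H952R2.TY.P.A6
import Pool.Agent.H952R2.TY.P.A7
import Pool.Agent.H952R2.TY.P.A8
import Pool.Agent.H952R2.TY.P.A9
import Pool.Agent.H952R2.TY.P.A10
import Pool.Agent.H952R2.TY.P.A11
import Pool.Agent.H952R2.TY.P.A12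
import Pool.Agent.H952R2.TY.P.B0
import Pool.Agent.H952R2.TY.P.B1
import Pool.Agent.H952R2.TY.P.B2
import Pool.Agent.H952R2.TY.P.B3
import Pool.Agent.H952R2.TY.P.B4
import Pool.Agent.H952R2.TY.P.B5
import Pool.Agent.H952R2.TY.P.B6
import Pool.Agent.H952R2.TY.P.B7
import Pool.Agent.H952R2.TY.P.C1
import Pool.Agent.H952R2.TY.P.C2
import Pool.Agent.H952R2.TY.P.C3
import Pool.Agent.H952R2.TY.P.C4
import Pool.Agent.H952R2.TY.P.C6
import Pool.Agent.H952R2.TY.P.D1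
import Pool.Agent.H952R2.TY.P.D2
import Pool.Agent.H952R2.TY.P.D3
import Pool.Agent.H952R2.TY.P.D4
import Pool.Agent.H952R2.TY.P.D5
import Pool.Agent.H952R2.TY.P.D6
import Pool.Agent.H952R2.TY.P.D7
import Pool.Agent.H952R2.TY.P.T1
import Pool.Agent.H952R2.TY.P.T5
import Pool.Agent.H952R2.TY.P.T6
import Pool.Agent.H952R2.TY.P.T7
import Pool.Agent.H952R2.TY.P.T8

/-!
# The category argument
-/

set_option autoImplicit false
open Filter Topology
open scoped ComplexOrder InnerProductSpace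

namespace Pool.Agent.H850.TY

open Pool.H711R2 Pool.Agent.H952R2.TY Pool.Agent.H952R2.TY.P

lemma a12 : S_A12 := A12 (A10 A1 A2 A3 (A4 A3) A5 A6 A7 A8 A9) A11

lemma b7 : S_B7 := B7 B0 B1 (B2 B0 B1) B3 B4 (B5 B3) B6

lemma c1 : S_C1 := C1 A1

lemma c4 : S_C4 := C4 c1 C2 (C3 C2)

lemma c6 : S_C6 := C6 C2

lemma d1 : S_D1 := D1 c1 C2

lemma step2 : S_STEP2 := STEP2 a12 B0 b7 c1 c4 c6 d1 (D2 C2 d1) D3 D4 D5 D6 D7

lemma t7 : S_T7 := T7 T1 (T3 T2) D5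

lemma t8 : S_T8 := T8 c1 c6

variable {H : Type} [NormedAddCommGroup H] [InnerProductSpace ℂ H] [CompleteSpace H]

/-- an operator of `M` with trivial kernel has dense range -/
theorem denseRange_of_kp {M : VonNeumannAlgebra H} {τ : (H →L[ℂ] H) →ₗ[ℂ] ℂ}
    (hτ : IsNormalTrace M τ) (hfaith : ∀ x ∈ M, τ (star x * x) = 0 → x = 0)
    {T : H →L[ℂ] H} (hT : T ∈ M) (h : tr τ (kp T) = 0) : DenseRange T := by
  have h1 : tr τ (kp (star T)) = 0 := by rw [← hτ.trace_kp hT]; exact h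
  have hTs : star T ∈ M := vn_star hT
  have h2 : kp (star T) = 0 := by
    apply hfaith _ (kp_mem hTs)
    have h2 := hτ.pos _ (kp_mem hTs)
    have h3 : star (kp (star T)) * kp (star T) = kp (star T) := by rw [kp_star, kp_idem]
    rw [h3] at h2 ⊢
    rw [Complex.le_def] at h2
    exact Complex.ext h1 h2.2.symm
  have h3 : (LinearMap.range (T : H →ₗ[ℂ] H))ᗮ = ⊥ := by
    rw [Submodule.eq_bot_iff]
    intro v hv
    have h4 : star T v = 0 := by
      have h5 : ∀ w, ⟪w, star T v⟫_ℂ = 0 := by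
        intro w
        rw [ContinuousLinearMap.star_eq_adjoint, ContinuousLinearMap.adjoint_inner_right]
        exact (Submodule.mem_orthogonal _ v).mp hv (T w) ⟨w, rfl⟩
      exact inner_self_eq_zero.mp (h5 _)
    have h6 := kp_apply_of_ker (star T) h4
    rw [h2] at h6
    simpa using h6.symm
  have h4 : (LinearMap.range (T : H →ₗ[ℂ] H)).topologicalClosure = ⊤ := by
    rw [← Submodule.orthogonal_orthogonal_eq_closure, h3, Submodule.bot_orthogonal_eq_top]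
  have h5 : Dense ((LinearMap.range (T : H →ₗ[ℂ] H) : Submodule ℂ H) : Set H) :=
    Submodule.dense_iff_topologicalClosure_eq_top.mpr h4
  have h6 : ((LinearMap.range (T : H →ₗ[ℂ] H) : Submodule ℂ H) : Set H) = Set.range T := by
    ext v; simp
  rw [h6] at h5
  exact h5

theorem main (M : VonNeumannAlgebra H) (τ : (H →L[ℂ] H) →ₗ[ℂ] ℂ) (hτ : IsNormalTrace M τ)
    (hfaith : ∀ x ∈ M, τ (star x * x) = 0 → x = 0) (hMcD : McD M τ) :
    ∃ _ : MetricSpace (QC M τ),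
      (∀ S T : QC M τ, dist S T = Real.sqrt (n2 τ (S.op - T.op))) ∧
      BaireSpace (QC M τ) ∧
      {T : QC M τ | (∀ v, T.op v = 0 → v = 0) ∧ DenseRange T.op ∧
        ∃ E ∈ M, star E = E ∧ E * E = E ∧ τ E = 1 / 2 ∧
          ∀ S : H →L[ℂ] H, S * T.op = T.op * S → S * E = E * S * E} ∈ residual (QC M τ) := by
  obtain ⟨mm, hd⟩ := (T6 T1) H M τ hτ hfaith
  refine ⟨mm, hd, t7 H M τ hτ hfaith hd, ?_⟩
  have hxx : ∀ T : QC M τ, T.op ∈ XX M τ := fun T => ⟨T.mem, T.norm_le, T.qn⟩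
  -- the step in metric form
  have step : ∀ (T : QC M τ) (U : Set (QC M τ)), IsOpen U → T ∈ U →
      ∀ (E F : H →L[ℂ] H) (j : ℕ) (c δ ρ : ℝ), E ∈ M → IsStarProjection E →
      IsF M ((c : ℂ) • T.op ^ j) F → 0 < δ → 0 < ρ →
      ∃ T' ∈ U, ∃ E', E' ∈ M ∧ IsStarProjection E' ∧ tr τ E' = 1 / 2 ∧
      Gd M τ ρ T'.op E' ∧ n2 τ (E' - E) ≤ 4 * gam τ ((c : ℂ) • T.op ^ j) F E + δ ∧
      tr τ (kp T'.op) < ρ := by
    intro T U hU hTU E F j c δ ρ hE hEs hF hδ hρ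
    obtain ⟨ε, hε, hball⟩ := Metric.isOpen_iff.mp hU T hTU
    have hδ' : 0 < min δ ((ε / 2) ^ 2) := lt_min hδ (by positivity)
    obtain ⟨T', hT', E', hE', hE's, hE't, hdd, hg, hEE, hker⟩ :=
      step2 H M τ hτ hMcD T.op E F j c (min δ ((ε / 2) ^ 2)) ρ (hxx T) hE hEs hF hδ' hρ
    refine ⟨toQC T' hT', hball ?_, E', hE', hE's, hE't, hg, ?_, hker⟩
    · rw [Metric.mem_ball, hd]
      have h2 : n2 τ (T' - T.op) ≤ (ε / 2) ^ 2 := hdd.trans (min_le_right _ _)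
      have h3 : Real.sqrt (n2 τ (T' - T.op)) ≤ ε / 2 := by
        rw [← Real.sqrt_sq (show (0:ℝ) ≤ ε / 2 by positivity)]
        exact Real.sqrt_le_sqrt h2
      have h4 : Real.sqrt (n2 τ ((toQC T' hT').op - T.op)) ≤ ε / 2 := h3
      linarith
    · exact hEE.trans (by gcongr; exact min_le_left _ _)
  have key := T5 (QC M τ) (H →L[ℂ] H)
    (fun k T E => (E ∈ M ∧ IsStarProjection E ∧ tr τ E = 1 / 2 ∧
      Gd M τ ((1 / 100 : ℝ) ^ k) T.op E) ∧ tr τ (kp T.op) < (1 / 100 : ℝ) ^ k)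
    (fun k E E' => n2 τ (E' - E) ≤ 6 * (1 / 100 : ℝ) ^ k) ?_ ?_ ?_
  · refine Filter.mem_of_superset key ?_
    rintro T ⟨E, hE⟩
    obtain ⟨E', a1, a2, a3, a4, a5⟩ := hyper hτ hfaith T.op E (fun k => (hE k).1.1.1)
      (fun k => (hE k).1.1.2.1) (fun k => (hE k).1.1.2.2.1) (fun k => (hE k).2)
      (fun k => (hE k).1.1.2.2.2)
    have hk0 : tr τ (kp T.op) ≤ 0 := by
      have hl : Tendsto (fun k : ℕ => (1 / 100 : ℝ) ^ k) atTop (𝓝 0) :=
        tendsto_pow_atTop_nhds_zero_of_lt_one (by norm_num) (by norm_num)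
      exact ge_of_tendsto' hl (fun k => (hE k).1.2.le)
    have hk1 : tr τ (kp T.op) = 0 :=
      le_antisymm hk0 (hτ.tr_proj_nonneg (kp_mem T.mem) (kp_isStar T.op))
    refine ⟨?_, denseRange_of_kp hτ hfaith T.mem hk1, E', a1, a2, a3, a4, a5⟩
    have hk2 : kp T.op = 0 := by
      apply hfaith _ (kp_mem T.mem)
      have h2 := hτ.pos _ (kp_mem T.mem)
      have h3 : star (kp T.op) * kp T.op = kp T.op := by rw [kp_star, kp_idem]
      rw [h3] at h2 ⊢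
      rw [Complex.le_def] at h2
      exact Complex.ext hk1 h2.2.symm
    intro v hv
    have := kp_apply_of_ker T.op hv
    rw [hk2] at this
    simpa using this.symm
  · -- open
    intro k E
    by_cases hE : E ∈ M ∧ IsStarProjection E ∧ tr τ E = 1 / 2
    · have h2 := t8 H M τ hτ hd ((1 / 100 : ℝ) ^ k) E hE.1 hE.2.1
      have h3 := K2 H M τ hτ hd ((1 / 100 : ℝ) ^ k)
      convert h2.inter h3 using 1
      ext T
      exact ⟨fun h => ⟨h.1.2.2.2, h.2⟩, fun h => ⟨⟨hE.1, hE.2.1, hE.2.2, h.1⟩, h.2⟩⟩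
    · have : {T : QC M τ | (E ∈ M ∧ IsStarProjection E ∧ tr τ E = 1 / 2 ∧
          Gd M τ ((1 / 100 : ℝ) ^ k) T.op E) ∧ tr τ (kp T.op) < (1 / 100 : ℝ) ^ k} = ∅ := by
        apply Set.eq_empty_of_forall_notMem
        intro T h
        exact hE ⟨h.1.1, h.1.2.1, h.1.2.2.1⟩
      rw [this]; exact isOpen_empty
  · -- start
    rintro U hU ⟨T, hT⟩
    have hF : IsF M (((0 : ℝ) : ℂ) • T.op ^ 0) 1 := by
      refine ⟨?_, vn_one M, ?_, ?_⟩
      · exact vn_smul _ (vn_pow T.mem 0)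
      · simp
      · simp
    obtain ⟨T', hT'U, E', b1, b2, b3, b4, -, b6⟩ := step T U hU hT 1 1 0 0 1 ((1 / 100 : ℝ) ^ 0)
      (vn_one M) (IsStarProjection.one _) hF one_pos (by positivity)
    exact ⟨T', hT'U, E', ⟨b1, b2, b3, b4⟩, b6⟩
  · -- refinement
    intro k E T hR U hU hTU
    obtain ⟨⟨hE, hEs, hEt, j, c, F, hF, hgam⟩, -⟩ := hR
    obtain ⟨T', hT'U, E', b1, b2, b3, b4, b5, b6⟩ := step T U hU hTU E F j c ((1 / 100 : ℝ) ^ k)
      ((1 / 100 : ℝ) ^ (k + 1)) hE hEs hF (by positivity) (by positivity)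
    refine ⟨T', hT'U, E', ⟨⟨b1, b2, b3, b4⟩, b6⟩, ?_⟩
    have : (0 : ℝ) < (1 / 100 : ℝ) ^ k := by positivity
    linarith

end Pool.Agent.H850.TY
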