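import Pool.Agent.H952R2.TY.P.T2
import Pool.Agent.H952R2.TY.P.T3
import Pool.Agent.H952R2.TY.P.T4
import Pool.Agent.H952R2.TY.P.C2

/-!
# From the 2-norm to the strong operator topology

Geometric convergence in the 2-norm of a faithful normal tracial state implies strong convergence
(for bounded sequences).  Hence limits of approximate graph projections are hyperinvariant for all
bounded operators on the Hilbert space, not only for those of the algebra.
-/

set_option autoImplicit false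
open Filter Topology
open scoped ComplexOrder InnerProductSpace

namespace Pool.Agent.H850.TY

open Pool.H711R2 Pool.Agent.H952R2.TY Pool.Agent.H952R2.TY.P Pool.Agent.H952R2.TY.P.T3h

variable {H : Type} [NormedAddCommGroup H] [InnerProductSpace ℂ H] [CompleteSpace H]
variable {M : VonNeumannAlgebra H} {τ : (H →L[ℂ] H) →ₗ[ℂ] ℂ}

/-- A closed subspace that contains all vectors on which the tail of `z` is geometrically small is
the whole space. -/
theorem dense_ranges (hτ : IsNormalTrace M τ)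
    (hfaith : ∀ x ∈ M, τ (star x * x) = 0 → x = 0)
    (z : ℕ → (H →L[ℂ] H)) (hzM : ∀ k, z k ∈ M) (hzn : ∀ k, n2 τ (z k) ≤ 6 * (1 / 100 : ℝ) ^ k)
    (W : Submodule ℂ H) (hW : IsClosed (W : Set H))
    (hsub : ∀ (l : ℕ) (v : H), (∀ k, l ≤ k → ‖z k v‖ ≤ (1 / 3 : ℝ) ^ k * ‖v‖) → v ∈ W) :
    W = ⊤ := by
  set q : ℕ → (H →L[ℂ] H) := fun k => ev (z k) ((1 / 3 : ℝ) ^ k) with hq
  have hqM : ∀ k, q k ∈ M := fun k => ev_mem (hzM k) _
  have hqS : ∀ k, IsStarProjection (q k) := fun k => ev_isStar _ _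
  have hqt : ∀ k, tr τ (1 - q k) ≤ 6 * (9 / 100 : ℝ) ^ k := fun k => tr_compl hτ (hzM k) k (hzn k)
  have hP : ∀ l, ∃ P ∈ M, IsStarProjection P ∧ (∀ v, P v = v ↔ ∀ k, q (k + l) v = v) ∧
      tr τ (1 - P) ≤ 7 * (9 / 100 : ℝ) ^ l := by
    intro l
    apply T2 H M τ hτ (fun k => q (k + l)) (7 * (9 / 100 : ℝ) ^ l) (fun k => hqM _)
      (fun k => hqS _)
    intro n
    exact le_trans (Finset.sum_le_sum fun k _ => hqt (k + l)) (sum_bound l n)
  choose P hPM hPS hPv hPt using hP
  have hidem : ∀ l w, P l (P l w) = P l w := by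
    intro l w
    have := app_eq (hPS l).isIdempotentElem.eq w
    rwa [mul_apply_eq_comp] at this
  have hW1 : ∀ l w, P l w ∈ W := by
    intro l w
    apply hsub l
    intro k hk
    have h1 := (hPv l (P l w)).mp (hidem l w) (k - l)
    have h2 : k - l + l = k := by omega
    rw [h2] at h1
    exact low (by positivity) h1
  -- the common kernel
  let K : Submodule ℂ H :=
    { carrier := {v | ∀ l, P l v = 0}
      add_mem' := by
        intro v w hv hw l
        rw [map_add, hv l, hw l, add_zero]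
      zero_mem' := by
        intro l
        rw [map_zero]
      smul_mem' := by
        intro c v hv l
        rw [map_smul, hv l, smul_zero] }
  have hKmem : ∀ v, v ∈ K ↔ ∀ l, P l v = 0 := fun v => Iff.rfl
  have hKcl : IsClosed (K : Set H) := by
    have : (K : Set H) = ⋂ l, {v | P l v = 0} := by
      ext v; simp [hKmem]
    rw [this]
    exact isClosed_iInter fun l => isClosed_eq (P l).continuous continuous_const
  haveI : CompleteSpace K := hKcl.completeSpace_coe
  set Z : H →L[ℂ] H := K.starProjection with hZ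
  have hZM : Z ∈ M := inf_ker_mem P hPM K hKmem
  have hZS : IsStarProjection Z := isStarProjection_starProjection
  have hZt : tr τ Z ≤ 0 := by
    have h1 : ∀ l, tr τ Z ≤ 7 * (9 / 100 : ℝ) ^ l := by
      intro l
      refine le_trans (hτ.tr_mono hZM (vn_sub (vn_one M) (hPM l)) hZS (hPS l).one_sub ?_) (hPt l)
      intro v hv
      have h2 : v ∈ K := Submodule.starProjection_eq_self_iff.mp hv
      rw [ContinuousLinearMap.sub_apply, (hKmem v).mp h2 l, sub_zero]
      rfl
    have h2 : Tendsto (fun l : ℕ => 7 * (9 / 100 : ℝ) ^ l) atTop (𝓝 (7 * 0)) :=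
      (tendsto_pow_atTop_nhds_zero_of_lt_one (by norm_num) (by norm_num)).const_mul 7
    rw [mul_zero] at h2
    exact ge_of_tendsto' h2 h1
  have hZ0 : Z = 0 := by
    apply hfaith Z hZM
    have h1 := hτ.pos Z hZM
    have h2 : tr τ (star Z * Z) ≤ 0 := by
      rw [hZS.isSelfAdjoint.star_eq, hZS.isIdempotentElem.eq]; exact hZt
    rw [Complex.le_def] at h1
    apply Complex.ext
    · exact le_antisymm h2 h1.1
    · exact h1.2.symm
  haveI : CompleteSpace W := hW.completeSpace_coe
  rw [← Submodule.orthogonal_eq_bot_iff, Submodule.eq_bot_iff]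
  intro v hv
  have h1 : v ∈ K := by
    rw [hKmem]
    intro l
    have h2 : ∀ w, ⟪w, P l v⟫_ℂ = 0 := by
      intro w
      have h3 : ⟪P l w, v⟫_ℂ = 0 := (Submodule.mem_orthogonal _ v).mp hv _ (hW1 l w)
      have h4 : ⟪P l w, v⟫_ℂ = ⟪w, P l v⟫_ℂ := by
        have := ContinuousLinearMap.adjoint_inner_left (P l) v w
        rw [← ContinuousLinearMap.star_eq_adjoint, (hPS l).isSelfAdjoint.star_eq] at this
        exact this
      rw [← h4, h3]
    exact inner_self_eq_zero.mp (h2 _)
  have h5 : Z v = v := Submodule.starProjection_eq_self_iff.mpr h1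
  rw [hZ0] at h5
  exact h5.symm

/-- the vectors on which `x k` tends to zero -/
def W0 (x : ℕ → (H →L[ℂ] H)) : Submodule ℂ H where
  carrier := {v | Tendsto (fun k => x k v) atTop (𝓝 0)}
  add_mem' := by
    intro v w hv hw
    have e : (fun k => x k (v + w)) = fun k => x k v + x k w := by
      funext k; rw [map_add]
    show Tendsto (fun k => x k (v + w)) atTop (𝓝 0)
    rw [e]
    have h := Tendsto.add (show Tendsto (fun k => x k v) atTop (𝓝 0) from hv)
      (show Tendsto (fun k => x k w) atTop (𝓝 0) from hw)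
    rwa [add_zero] at h
  zero_mem' := by
    show Tendsto (fun k => x k 0) atTop (𝓝 0)
    simp only [map_zero]
    exact tendsto_const_nhds
  smul_mem' := by
    intro c v hv
    have e : (fun k => x k (c • v)) = fun k => c • x k v := by
      funext k; rw [map_smul]
    show Tendsto (fun k => x k (c • v)) atTop (𝓝 0)
    rw [e]
    have h := Tendsto.const_smul (show Tendsto (fun k => x k v) atTop (𝓝 0) from hv) c
    rwa [smul_zero] at h

theorem closed_W0 (x : ℕ → (H →L[ℂ] H)) (C : ℝ) (hC : ∀ k, ‖x k‖ ≤ C) :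
    IsClosed (W0 x : Set H) := by
  have hC0 : 0 ≤ C := (norm_nonneg _).trans (hC 0)
  apply isClosed_of_closure_subset
  intro v hv
  show Tendsto (fun k => x k v) atTop (𝓝 0)
  rw [Metric.tendsto_atTop]
  intro ε hε
  obtain ⟨w, hw, hvw⟩ := Metric.mem_closure_iff.mp hv (ε / (2 * (C + 1))) (by positivity)
  have hw' : Tendsto (fun k => x k w) atTop (𝓝 0) := hw
  obtain ⟨N, hN⟩ := (Metric.tendsto_atTop.mp hw') (ε / 2) (by linarith)
  refine ⟨N, fun n hn => ?_⟩
  have h1 := hN n hn
  rw [dist_zero_right] at h1 ⊢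
  have h2 : ‖x n (v - w)‖ ≤ C * ‖v - w‖ := by
    refine ((x n).le_opNorm _).trans ?_
    gcongr
    exact hC n
  have h3 : ‖v - w‖ < ε / (2 * (C + 1)) := by rwa [← dist_eq_norm]
  have h4 : C * ‖v - w‖ ≤ (C + 1) * (ε / (2 * (C + 1))) := by
    apply mul_le_mul (by linarith) h3.le (norm_nonneg _) (by linarith)
  have h5 : (C + 1) * (ε / (2 * (C + 1))) = ε / 2 := by field_simp
  have h6 : x n v = x n (v - w) + x n w := by rw [map_sub]; abel
  rw [h6]
  calc ‖x n (v - w) + x n w‖ ≤ ‖x n (v - w)‖ + ‖x n w‖ := norm_add_le _ _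
    _ < ε := by linarith

/-- Bounded sequences that tend to zero geometrically in the 2-norm tend to zero strongly. -/
theorem strong_zero (hτ : IsNormalTrace M τ)
    (hfaith : ∀ x ∈ M, τ (star x * x) = 0 → x = 0)
    (x : ℕ → (H →L[ℂ] H)) (hxM : ∀ k, x k ∈ M) (C : ℝ) (hC : ∀ k, ‖x k‖ ≤ C)
    (hxn : ∀ k, n2 τ (x k) ≤ 6 * (1 / 100 : ℝ) ^ k) (v : H) :
    Tendsto (fun k => x k v) atTop (𝓝 0) := by
  have h : W0 x = ⊤ := by
    apply dense_ranges hτ hfaith x hxM hxn (W0 x) (closed_W0 x C hC)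
    intro l v hv
    show Tendsto (fun k => x k v) atTop (𝓝 0)
    have h1 : Tendsto (fun k : ℕ => (1 / 3 : ℝ) ^ k * ‖v‖) atTop (𝓝 0) := by
      have := (tendsto_pow_atTop_nhds_zero_of_lt_one (r := (1 / 3 : ℝ)) (by norm_num)
        (by norm_num)).mul_const ‖v‖
      rwa [zero_mul] at this
    apply squeeze_zero_norm' _ h1
    filter_upwards [eventually_ge_atTop l] with k hk
    exact hv k hk
  have h2 : v ∈ W0 x := by rw [h]; trivial
  exact h2

/-- Strong limits of Cauchy sequences. -/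
theorem strong_limit (hτ : IsNormalTrace M τ)
    (hfaith : ∀ x ∈ M, τ (star x * x) = 0 → x = 0)
    (x : ℕ → (H →L[ℂ] H)) (hxM : ∀ k, x k ∈ M) (hx1 : ∀ k, ‖x k‖ ≤ 1)
    (hxn : ∀ k, n2 τ (x (k + 1) - x k) ≤ 6 * (1 / 100 : ℝ) ^ k) :
    ∃ y ∈ M, ∀ v, Tendsto (fun k => x k v) atTop (𝓝 (y v)) := by
  have hWtop : WW x = ⊤ := by
    apply dense_ranges hτ hfaith (fun k => x (k + 1) - x k) (fun k => vn_sub (hxM _) (hxM _)) hxn
      (WW x) (closed_WW x hx1)
    intro l v hv
    exact mem_WW_of_bound x l v hv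
  have hlim : ∀ v, ∃ w, Tendsto (fun k => x k v) atTop (𝓝 w) := by
    intro v
    have h1 : v ∈ WW x := by rw [hWtop]; trivial
    exact cauchySeq_tendsto_of_complete h1
  choose g hg using hlim
  have hbd : Bornology.IsBounded (Set.range x) := by
    rw [isBounded_iff_forall_norm_le]
    refine ⟨1, ?_⟩
    rintro _ ⟨k, rfl⟩
    exact hx1 k
  let y : H →L[ℂ] H := ContinuousLinearMap.ofTendstoOfBoundedRange (l := atTop) g x
    (tendsto_pi_nhds.mpr hg) hbd
  have hy : ∀ v, Tendsto (fun k => x k v) atTop (𝓝 (y v)) := hg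
  have hyM : y ∈ M := by
    have h1 : y ∈ M.commutant.commutant := by
      rw [VonNeumannAlgebra.mem_commutant_iff]
      intro u hu
      ext v
      rw [mul_apply_eq_comp, mul_apply_eq_comp]
      have h2 : Tendsto (fun k => x k (u v)) atTop (𝓝 (u (y v))) := by
        have h3 : (fun k => x k (u v)) = fun k => u (x k v) := by
          funext k
          have h4 : x k * u = u * x k := VonNeumannAlgebra.mem_commutant_iff.mp hu (x k) (hxM k)
          have h5 := app_eq h4 v
          rwa [mul_apply_eq_comp, mul_apply_eq_comp] at h5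
        rw [h3]
        exact (u.continuous.tendsto _).comp (hy v)
      exact tendsto_nhds_unique h2 (hy (u v))
    simpa using h1
  exact ⟨y, hyM, hy⟩

omit [CompleteSpace H] in
/-- bounded strongly convergent sequences applied to convergent sequences -/
theorem comp_lim {A : ℕ → (H →L[ℂ] H)} {C : ℝ} (hA : ∀ k, ‖A k‖ ≤ C) {a : H →L[ℂ] H}
    (h : ∀ v, Tendsto (fun k => A k v) atTop (𝓝 (a v))) {u : ℕ → H} {u0 : H}
    (hu : Tendsto u atTop (𝓝 u0)) : Tendsto (fun k => A k (u k)) atTop (𝓝 (a u0)) := by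
  have e : (fun k => A k (u k)) = fun k => A k (u k - u0) + A k u0 := by
    funext k; rw [map_sub]; abel
  rw [e]
  have h1 : Tendsto (fun k => A k (u k - u0)) atTop (𝓝 0) := by
    have h2 : Tendsto (fun k => C * ‖u k - u0‖) atTop (𝓝 0) := by
      have h3 : Tendsto (fun k => u k - u0) atTop (𝓝 0) := by
        have := hu.sub_const u0
        rwa [sub_self] at this
      have h4 := h3.norm.const_mul C
      rwa [norm_zero, mul_zero] at h4
    apply squeeze_zero_norm _ h2
    intro k
    refine ((A k).le_opNorm _).trans ?_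
    gcongr
    exact hA k
  have h5 := h1.add (h u0)
  rwa [zero_add] at h5

/-- Strong limits of projections of trace `1/2`. -/
theorem strong_proj (hτ : IsNormalTrace M τ)
    (hfaith : ∀ x ∈ M, τ (star x * x) = 0 → x = 0)
    (E : ℕ → (H →L[ℂ] H)) (hEM : ∀ k, E k ∈ M) (hEP : ∀ k, IsStarProjection (E k))
    (hEt : ∀ k, tr τ (E k) = 1 / 2)
    (hEn : ∀ k, n2 τ (E (k + 1) - E k) ≤ 6 * (1 / 100 : ℝ) ^ k) :
    ∃ y ∈ M, star y = y ∧ y * y = y ∧ τ y = 1 / 2 ∧
      ∀ v, Tendsto (fun k => E k v) atTop (𝓝 (y v)) := by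
  have hE1 : ∀ k, ‖E k‖ ≤ 1 := fun k => (hEP k).norm_le
  obtain ⟨y, hyM, hy⟩ := strong_limit hτ hfaith E hEM hE1 hEn
  refine ⟨y, hyM, ?_, ?_, ?_, hy⟩
  · rw [ContinuousLinearMap.star_eq_adjoint]
    symm
    rw [ContinuousLinearMap.eq_adjoint_iff]
    intro v w
    have h1 : Tendsto (fun k => ⟪E k v, w⟫_ℂ) atTop (𝓝 ⟪y v, w⟫_ℂ) :=
      (hy v).inner tendsto_const_nhds
    have h2 : Tendsto (fun k => ⟪v, E k w⟫_ℂ) atTop (𝓝 ⟪v, y w⟫_ℂ) :=
      tendsto_const_nhds.inner (hy w)
    have h3 : (fun k => ⟪E k v, w⟫_ℂ) = fun k => ⟪v, E k w⟫_ℂ := by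
      funext k
      have := ContinuousLinearMap.adjoint_inner_left (E k) w v
      rw [← ContinuousLinearMap.star_eq_adjoint, (hEP k).isSelfAdjoint.star_eq] at this
      exact this
    rw [h3] at h1
    exact tendsto_nhds_unique h1 h2
  · ext v
    rw [mul_apply_eq_comp]
    have h1 := comp_lim hE1 hy (hy v)
    have h2 : (fun k => E k (E k v)) = fun k => E k v := by
      funext k
      have := app_eq (hEP k).isIdempotentElem.eq v
      rwa [mul_apply_eq_comp] at this
    rw [h2] at h1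
    exact tendsto_nhds_unique h1 (hy v)
  · have h1 := hτ.normal E y hEM hE1 hyM hy
    have h2 : ∀ k, τ (E k) = 1 / 2 := by
      intro k
      have e : τ (E k) = τ (star (E k) * E k) := by
        rw [(hEP k).isSelfAdjoint.star_eq, (hEP k).isIdempotentElem.eq]
      apply Complex.ext
      · have : (τ (E k)).re = 1 / 2 := hEt k
        rw [this]; norm_num
      · rw [e, T4_real hτ (hEM k)]; norm_num
    simp only [h2] at h1
    exact (tendsto_nhds_unique h1 tendsto_const_nhds)

/-- **Hyperinvariance in `B(H)`**: the limit projection is invariant under every bounded operator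
on `H` that commutes with `T`. -/
theorem hyper (hτ : IsNormalTrace M τ)
    (hfaith : ∀ x ∈ M, τ (star x * x) = 0 → x = 0)
    (T : H →L[ℂ] H) (E : ℕ → (H →L[ℂ] H)) (hEM : ∀ k, E k ∈ M)
    (hEP : ∀ k, IsStarProjection (E k)) (hEt : ∀ k, tr τ (E k) = 1 / 2)
    (hEn : ∀ k, n2 τ (E (k + 1) - E k) ≤ 6 * (1 / 100 : ℝ) ^ k)
    (hG : ∀ k, Gd M τ ((1 / 100 : ℝ) ^ k) T (E k)) :
    ∃ y ∈ M, star y = y ∧ y * y = y ∧ τ y = 1 / 2 ∧
      ∀ S : H →L[ℂ] H, S * T = T * S → S * y = y * S * y := by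
  obtain ⟨y, hyM, hys, hyi, hyt, hy⟩ := strong_proj hτ hfaith E hEM hEP hEt hEn
  refine ⟨y, hyM, hys, hyi, hyt, ?_⟩
  choose j c F hF hg using hG
  set B : ℕ → (H →L[ℂ] H) := fun k => (c k : ℂ) • T ^ (j k) with hB
  have hBM : ∀ k, B k ∈ M := fun k => (hF k).memB
  have hFM : ∀ k, F k ∈ M := fun k => (hF k).memF
  have hFEM : ∀ k, F k - E k ∈ M := fun k => vn_sub (hFM k) (hEM k)
  have hBFM : ∀ k, B k * F k ∈ M := fun k => vn_mul (hBM k) (hFM k)
  have hKM : ∀ k, B k * F k * star (B k) ∈ M := fun k => vn_mul (hBFM k) (vn_star (hBM k))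
  have hc2 : ∀ k, ‖F k‖ ≤ 1 ∧ ‖B k * F k‖ ≤ 1 ∧ ‖F k * star (B k)‖ ≤ 1 ∧
      F k * (star (B k) * B k) = 1 - F k := by
    intro k
    obtain ⟨-, -, e2, -, nF, nBF, nFB, -, -, -⟩ := C2 H M (B k) (F k) (hF k)
    exact ⟨nF, nBF, nFB, e2⟩
  have hgk : ∀ k, n2 τ (F k - E k) + 2 * n2 τ (B k * F k) +
      n2 τ (B k * F k * star (B k) - E k) < (1 / 100 : ℝ) ^ k := fun k => hg k
  have hp : ∀ k : ℕ, (0 : ℝ) < (1 / 100 : ℝ) ^ k := fun k => by positivity
  have g1 : ∀ k, n2 τ (F k - E k) ≤ 6 * (1 / 100 : ℝ) ^ k := by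
    intro k
    have h0 := hgk k
    have h1 := hτ.n2_nonneg (hBFM k)
    have h2 := hτ.n2_nonneg (vn_sub (hKM k) (hEM k))
    have h3 := hp k
    linarith
  have g2 : ∀ k, n2 τ (B k * F k) ≤ 6 * (1 / 100 : ℝ) ^ k := by
    intro k
    have h0 := hgk k
    have h1 := hτ.n2_nonneg (hFEM k)
    have h2 := hτ.n2_nonneg (vn_sub (hKM k) (hEM k))
    have h3 := hp k
    have h4 := hτ.n2_nonneg (hBFM k)
    linarith
  have s1 : ∀ v, Tendsto (fun k => F k v) atTop (𝓝 (y v)) := by
    intro v
    have h1 := strong_zero hτ hfaith (fun k => F k - E k) hFEM 2 (fun k =>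
      (norm_sub_le _ _).trans (by
        have := (hc2 k).1
        have := (hEP k).norm_le
        linarith)) g1 v
    have h2 := h1.add (hy v)
    rw [zero_add] at h2
    refine h2.congr ?_
    intro k
    rw [ContinuousLinearMap.sub_apply]
    abel
  have s2 : ∀ v, Tendsto (fun k => (B k * F k) v) atTop (𝓝 0) :=
    strong_zero hτ hfaith (fun k => B k * F k) hBFM 1 (fun k => (hc2 k).2.1) g2
  intro S hST
  have hSB : ∀ k, S * B k = B k * S := by
    intro k
    have h : S * T ^ (j k) = T ^ (j k) * S := (show Commute S T from hST).pow_right (j k)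
    rw [hB]
    show S * ((c k : ℂ) • T ^ (j k)) = ((c k : ℂ) • T ^ (j k)) * S
    rw [mul_smul_comm, smul_mul_assoc, h]
  have hid : ∀ k, S * F k - F k * (S * F k) = (F k * star (B k)) * (S * (B k * F k)) := by
    intro k
    have e2 := (hc2 k).2.2.2
    calc S * F k - F k * (S * F k) = (1 - F k) * S * F k := by noncomm_ring
      _ = F k * (star (B k) * B k) * S * F k := by rw [e2]
      _ = F k * star (B k) * (B k * S) * F k := by noncomm_ring
      _ = F k * star (B k) * (S * B k) * F k := by rw [hSB k]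
      _ = (F k * star (B k)) * (S * (B k * F k)) := by noncomm_ring
  ext v
  rw [mul_apply_eq_comp, mul_apply_eq_comp, mul_apply_eq_comp]
  have l1 : Tendsto (fun k => S (F k v)) atTop (𝓝 (S (y v))) :=
    (S.continuous.tendsto _).comp (s1 v)
  have l2 : Tendsto (fun k => F k (S (F k v))) atTop (𝓝 (y (S (y v)))) :=
    comp_lim (fun k => (hc2 k).1) s1 l1
  have l3 : Tendsto (fun k => (F k * star (B k)) (S ((B k * F k) v))) atTop (𝓝 0) := by
    have h1 : Tendsto (fun k => ‖S ((B k * F k) v)‖) atTop (𝓝 0) := by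
      have h2 : Tendsto (fun k => S ((B k * F k) v)) atTop (𝓝 (S 0)) :=
        (S.continuous.tendsto 0).comp (s2 v)
      rw [map_zero] at h2
      have h3 := h2.norm
      rwa [norm_zero] at h3
    apply squeeze_zero_norm _ h1
    intro k
    refine ((F k * star (B k)).le_opNorm _).trans ?_
    have h2 := (hc2 k).2.2.1
    have h3 := norm_nonneg (S ((B k * F k) v))
    nlinarith
  have l4 : Tendsto (fun k => S (F k v) - F k (S (F k v))) atTop (𝓝 (S (y v) - y (S (y v)))) :=
    l1.sub l2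
  have e4 : (fun k => S (F k v) - F k (S (F k v))) =
      fun k => (F k * star (B k)) (S ((B k * F k) v)) := by
    funext k
    have := app_eq (hid k) v
    rw [ContinuousLinearMap.sub_apply, mul_apply_eq_comp, mul_apply_eq_comp, mul_apply_eq_comp,
      mul_apply_eq_comp, mul_apply_eq_comp] at this
    exact this
  rw [e4] at l4
  exact sub_eq_zero.mp (tendsto_nhds_unique l4 l3)

end Pool.Agent.H850.TY
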